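import Mathlib
import Pool.Agent.H208R3.SV.Order3

/-!
# The Saff–Varga width conjecture fails for entire functions of finite order
-/

set_option autoImplicit false
set_option linter.all false

open Finset

namespace Pool.Agent.Results.MP_a05d5a_an.FiniteOrderDisproof

/-- The power series `∑ a_k z^k` is entire: it converges at every `z`. -/
def IsEntire (a : ℕ → ℂ) : Prop := ∀ z : ℂ, Summable (fun k => a k * z ^ k)

/-- The `n`-th partial sum `p_n(z) = ∑_{k=0}^n a_k z^k`. -/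
noncomputable def partialSum (a : ℕ → ℂ) (n : ℕ) (z : ℂ) : ℂ := ∑ k ∈ range (n + 1), a k * z ^ k

/-- `M(r) = max_{|z| = r} |f(z)|` for `f(z) = ∑ a_k z^k`. -/
noncomputable def maxModulus (a : ℕ → ℂ) (r : ℝ) : ℝ :=
  sSup ((fun z : ℂ => ‖∑' k, a k * z ^ k‖) '' Metric.sphere 0 r)

/-- The order `limsup_{r → ∞} log log M(r) / log r`. -/
noncomputable def order (a : ℕ → ℂ) : EReal :=
  Filter.limsup (fun r : ℝ =>
    ((Real.log (Real.log (maxModulus a r)) / Real.log r : ℝ) : EReal)) Filter.atTop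

/-- The region `S_θ(τ) = e^{iθ} S_0(τ)`, with
`S_0(τ) = {x + i y : |y| ≤ K x^{1 - τ/2}, x ≥ x₀}`. -/
def region (τ K x₀ θ : ℝ) : Set ℂ :=
  {z | ∃ w : ℂ, x₀ ≤ w.re ∧ |w.im| ≤ K * w.re ^ (1 - τ / 2) ∧
    z = Complex.exp ((θ : ℂ) * Complex.I) * w}

/-- The statement Q1 (Saff–Varga): for all `τ`, `K > 0`, `x₀ > 0` and every entire function of
positive finite order `lam > τ` there is an infinite set `M` of positive integers such that every
region `S_θ(τ)` contains a zero of `p_m` for some `m ∈ M`. -/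
def SaffVargaConjecture : Prop :=
  ∀ τ K x₀ : ℝ, 0 < K → 0 < x₀ → ∀ a : ℕ → ℂ, IsEntire a →
    ∀ lam : ℝ, order a = (lam : EReal) → 0 < lam → τ < lam →
      ∃ M : Set ℕ, M.Infinite ∧ (∀ m ∈ M, 1 ≤ m) ∧
        ∀ θ : ℝ, ∃ m ∈ M, ∃ z ∈ region τ K x₀ θ, partialSum a m z = 0

/-- For all `0 < τ ≤ 2`, `K > 0` and `x₀ > 0` there is an entire function of finite order
`lam > τ` such that no partial sum `p_m`, `m ≥ 1`, has a zero in the region `S_0(τ)`. In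
particular the Saff–Varga width conjecture is false. -/
theorem result :
    (∀ τ K x₀ : ℝ, 0 < τ → τ ≤ 2 → 0 < K → 0 < x₀ →
      ∃ a : ℕ → ℂ, IsEntire a ∧ (∃ lam : ℝ, order a = (lam : EReal) ∧ 0 < lam ∧ τ < lam) ∧
        ∀ m : ℕ, 1 ≤ m → ∀ z ∈ region τ K x₀ 0, partialSum a m z ≠ 0) ∧
      ¬ SaffVargaConjecture := by
  have main : ∀ τ K x₀ : ℝ, 0 < τ → τ ≤ 2 → 0 < K → 0 < x₀ →
      ∃ a : ℕ → ℂ, IsEntire a ∧ (∃ lam : ℝ, order a = (lam : EReal) ∧ 0 < lam ∧ τ < lam) ∧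
        ∀ m : ℕ, 1 ≤ m → ∀ z ∈ region τ K x₀ 0, partialSum a m z ≠ 0 := by
    intro τ K x₀ hτ hτ2 hK hx₀
    obtain ⟨a, h1, h2, lam, h3, h4⟩ :=
      Pool.Agent.H208R3.SV.exists_finite_order τ K hτ hτ2 hK
    refine ⟨a, h2, ⟨lam, h4, by linarith, h3⟩, ?_⟩
    rintro m hm z ⟨w, hw1, hw2, hw3⟩
    have hz : z = w := by
      rw [hw3]
      simp
    rw [hz]
    exact h1 m hm w ⟨by linarith, hw2⟩
  refine ⟨main, ?_⟩
  intro hconj
  obtain ⟨a, h1, ⟨lam, h2, h3, h4⟩, h5⟩ := main 1 1 1 one_pos (by norm_num) one_pos one_pos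
  obtain ⟨M, _, hM, h6⟩ := hconj 1 1 1 one_pos one_pos a h1 lam h2 h3 h4
  obtain ⟨m, hm, z, hz, h7⟩ := h6 0
  exact h5 m (hM m hm) z hz h7

end Pool.Agent.Results.MP_a05d5a_an.FiniteOrderDisproof
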